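import Mathlib

/-!
# A double root of a digit-sum Hankel determinant
-/

open Polynomial

namespace Pool.Agent.Results.MP_adc81a_nt.DoubleRoot

/-- the weighted binary digit sum `S(n, t) = ∑ ε_j t^j`, where `n = ∑ ε_j 2^j` -/
noncomputable def S (n : ℕ) : ℤ[X] :=
  ∑ j ∈ Finset.range (n + 1), if n.testBit j then X ^ j else 0

/-- the Hankel matrix `[S(i + j, t)]`, `0 ≤ i, j < n` -/
noncomputable def H (n : ℕ) : Matrix (Fin n) (Fin n) ℤ[X] :=
  Matrix.of fun i j => S ((i : ℕ) + (j : ℕ))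

/-- a criterion for double divisibility of a determinant -/
lemma sq_dvd_det {R ι : Type*} [CommRing R] [Fintype ι] [DecidableEq ι] (M : Matrix ι ι R)
    (v : ι → R) (k : ι) (d : R) (hd : ∀ a b : R, d * a = d * b → a = b) (hk : v k = 1)
    (h1 : ∀ i, d ∣ ∑ j, v j * M i j) (h2 : ∀ j, d ∣ ∑ i, v i * M i j)
    (h3 : d ^ 2 ∣ ∑ i, v i * ∑ j, v j * M i j) : d ^ 2 ∣ M.det := by
  choose w hw using h1
  have e1 : (M.updateCol k fun i => ∑ j, v j • M i j).det = v k • M.det :=
    Matrix.det_updateCol_sum M k v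
  have e2 : (fun i => ∑ j, v j • M i j) = d • w := by
    ext i
    simp only [smul_eq_mul, Pi.smul_apply]
    exact hw i
  rw [hk, one_smul, e2, Matrix.det_updateCol_smul] at e1
  set N := M.updateCol k w with hN
  have e3 : (N.updateRow k (∑ i, v i • N i)).det = v k • N.det := Matrix.det_updateRow_sum N k v
  rw [hk, one_smul] at e3
  have hdiv : ∀ j, d ∣ (∑ i, v i • N i) j := by
    intro j
    rw [Finset.sum_apply]
    simp only [Pi.smul_apply, smul_eq_mul, hN, Matrix.updateCol_apply]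
    by_cases hj : j = k
    · subst hj
      simp only [if_true]
      obtain ⟨c, hc⟩ := h3
      refine ⟨c, hd _ _ ?_⟩
      rw [Finset.mul_sum, ← mul_assoc, ← pow_two, ← hc]
      refine Finset.sum_congr rfl fun i _ => ?_
      rw [hw i]
      ring
    · simp only [if_neg hj]
      exact h2 j
  choose z hz using hdiv
  have e4 : (∑ i, v i • N i) = d • z := by
    ext j
    simp only [Pi.smul_apply, smul_eq_mul]
    exact hz j
  rw [e4, Matrix.det_updateRow_smul] at e3
  rw [← e1, ← e3]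
  exact ⟨(N.updateRow k z).det, by ring⟩

/-- numerical values of `S` at `-1` -/
def sv (n : ℕ) : ℤ := ∑ j ∈ Finset.range 7, if n.testBit j then (-1) ^ j else 0

/-- numerical values of the derivative of `S` at `-1` -/
def dv (n : ℕ) : ℤ := ∑ j ∈ Finset.range 7, if n.testBit j then (j : ℤ) * (-1) ^ (j - 1) else 0

lemma S_eq (n : ℕ) (hn : n < 128) :
    S n = ∑ j ∈ Finset.range 7, if n.testBit j then (X : ℤ[X]) ^ j else 0 := by
  have key : ∀ m, n < 2 ^ m → m ≤ n + 8 →
      (∑ j ∈ Finset.range m, if n.testBit j then (X : ℤ[X]) ^ j else 0) =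
      ∑ j ∈ Finset.range (n + 8), if n.testBit j then (X : ℤ[X]) ^ j else 0 := by
    intro m hm hm2
    refine Finset.sum_subset (Finset.range_mono hm2) fun j _ hj => ?_
    rw [Finset.mem_range, not_lt] at hj
    rw [Nat.testBit_lt_two_pow (lt_of_lt_of_le hm (Nat.pow_le_pow_right (by norm_num) hj))]
    simp
  rw [S, key (n + 1) (lt_of_lt_of_le (Nat.lt_two_pow_self) (Nat.pow_le_pow_right (by norm_num)
    (Nat.le_succ n))) (by omega), key 7 (by norm_num; exact hn) (by omega)]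

lemma eval_S (n : ℕ) (hn : n < 128) : (S n).eval (-1) = sv n := by
  rw [S_eq n hn, eval_finsetSum, sv]
  refine Finset.sum_congr rfl fun j _ => ?_
  split_ifs <;> simp

lemma eval_dS (n : ℕ) (hn : n < 128) : (derivative (S n)).eval (-1) = dv n := by
  rw [S_eq n hn, derivative_sum, eval_finsetSum, dv]
  refine Finset.sum_congr rfl fun j _ => ?_
  by_cases h : n.testBit j = true
  · rw [if_pos h, if_pos h, derivative_X_pow, eval_mul, eval_pow, eval_X, eval_C]
  · rw [if_neg h, if_neg h, derivative_zero, eval_zero]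

/-- the kernel vector at `t = -1` -/
def L : List ℤ := [-3, 2, 1, 0, -1, 1, 1, 0, 0, 0, 0, 0, 0, 0, 0, 0, -3, 2, 1, 0, -1, 1, 1, 0, 0,
  0, 0, 0, 0, 0, 0, 0, 8, -5, -2, 0, 2, -2, -2, 0, 2, -1, 0, 0, 0, 0, 0, 0, -3, 2, 1, 0, -1, 1, 1]

/-- the kernel vector at `t = -1`, as a function -/
def v (i : ℕ) : ℤ := L.getD i 0

lemma ker_v : ∀ i : Fin 55, ∑ j : Fin 55, v j * sv ((i : ℕ) + (j : ℕ)) = 0 := by
  decide +kernel

lemma quad_v : ∑ i : Fin 55, v i * ∑ j : Fin 55, v j * dv ((i : ℕ) + (j : ℕ)) = 0 := by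
  decide +kernel

lemma sq_dvd_of (p : ℤ[X]) (a : ℤ) (h0 : p.eval a = 0) (h1 : (derivative p).eval a = 0) :
    (X - C a) ^ 2 ∣ p := by
  obtain ⟨q, rfl⟩ := dvd_iff_isRoot.2 h0
  rw [derivative_mul, eval_add, eval_mul, eval_mul] at h1
  simp only [derivative_sub, derivative_X, derivative_C, sub_zero, eval_one, one_mul, eval_sub,
    eval_X, eval_C, sub_self, zero_mul, add_zero] at h1
  obtain ⟨r, rfl⟩ := dvd_iff_isRoot.2 h1
  exact ⟨r, by ring⟩

lemma sq_dvd_H : (X - C (-1)) ^ 2 ∣ (H 55).det := by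
  have hlt : ∀ i j : Fin 55, (i : ℕ) + (j : ℕ) < 128 := fun i j => by omega
  have hcol : ∀ i : Fin 55, (X - C (-1) : ℤ[X]) ∣ ∑ j : Fin 55, C (v j) * H 55 i j := by
    intro i
    rw [dvd_iff_isRoot, IsRoot.def, eval_finsetSum, ← ker_v i]
    refine Finset.sum_congr rfl fun j _ => ?_
    rw [eval_mul, eval_C, H, Matrix.of_apply, eval_S _ (hlt i j)]
  have hsymm : ∀ i j : Fin 55, H 55 i j = H 55 j i := by
    intro i j
    simp only [H, Matrix.of_apply, add_comm]
  refine sq_dvd_det (H 55) (fun i => C (v i)) ⟨2, by norm_num⟩ (X - C (-1)) ?_ ?_ hcol ?_ ?_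
  · intro a b hab
    exact mul_left_cancel₀ (X_sub_C_ne_zero (-1)) hab
  · change C (v 2) = 1
    rw [show v 2 = 1 from rfl, C_1]
  · intro j
    have := hcol j
    simpa only [hsymm j] using this
  · apply sq_dvd_of
    · rw [eval_finsetSum]
      refine Finset.sum_eq_zero fun i _ => ?_
      rw [eval_mul, (dvd_iff_isRoot.1 (hcol i)).eq_zero, mul_zero]
    · rw [derivative_sum, eval_finsetSum, ← quad_v]
      refine Finset.sum_congr rfl fun i _ => ?_
      rw [derivative_mul, derivative_C, zero_mul, zero_add, eval_mul, eval_C, derivative_sum,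
        eval_finsetSum]
      congr 1
      refine Finset.sum_congr rfl fun j _ => ?_
      rw [derivative_mul, derivative_C, zero_mul, zero_add, eval_mul, eval_C, H, Matrix.of_apply,
        eval_dS _ (hlt i j)]

/-- There are `n ≥ 2` and a multiple root `t₀` of the determinant `ℋ(n, t)` which is neither `0`
nor twice a root of unity: `n = 55`, `t₀ = -1`. -/
theorem result : ∃ n : ℕ, 2 ≤ n ∧ ∃ t₀ : ℂ, t₀ ≠ 0 ∧
    (∀ ζ : ℂ, ∀ m : ℕ, 1 ≤ m → ζ ^ m = 1 → t₀ ≠ 2 * ζ) ∧
    (X - C t₀) ^ 2 ∣ ((H n).det.map (Int.castRingHom ℂ)) := by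
  refine ⟨55, by norm_num, -1, by norm_num, ?_, ?_⟩
  · intro ζ m hm hζ h
    have h1 : ‖ζ‖ = 1 := Complex.norm_eq_one_of_pow_eq_one hζ (by omega)
    have h2 := congrArg norm h
    rw [norm_neg, norm_one, norm_mul, h1, Complex.norm_ofNat] at h2
    norm_num at h2
  · have h := Polynomial.map_dvd (Int.castRingHom ℂ) sq_dvd_H
    simpa using h

end Pool.Agent.Results.MP_adc81a_nt.DoubleRoot
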